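import Mathlib
import Pool.Agent.H90.KpB

namespace Pool.Agent.Results.MP_a30514_an.NotProj

open Pool.Agent.H90.Kp

theorem result : ¬ LeftProj (lp (fun _ : ℕ => ℂ) 1) := not_proj

end Pool.Agent.Results.MP_a30514_an.NotProj
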