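import Mathlib
import Pool.Agent.H90.KrB

namespace Pool.Agent.Results.MP_a30514_an.NotRight

open Pool.Agent.H90.Kp

theorem result : ∃ (E : Type) (_ : NormedAddCommGroup E) (_ : NormedSpace ℂ E),
    CompleteSpace E ∧ ¬RightProj E := ex_right

end Pool.Agent.Results.MP_a30514_an.NotRight
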